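import Mathlib

/-!
# A hyperspace of finite unions of convergent sequences which is a `σ`-space but not an `ℵ`-space

`X` is the sequential fan with uncountably many spines: the quotient of a disjoint union of
uncountably many convergent sequences in which all limit points are identified.
-/

set_option autoImplicit false

open Set Topology Filter

namespace Pool.Agent.Results.MP_81fb9f_gt.SigmaNotAleph

section Defs

variable {X : Type} [TopologicalSpace X]

/-- The set `{x n : n} ∪ {a}` where `x n → a`. -/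
def IsConvSeq (C : Set X) : Prop :=
  ∃ (x : ℕ → X) (a : X), Tendsto x atTop (𝓝 a) ∧ C = range x ∪ {a}

variable (X) in
/-- The nonempty closed subsets of `X` that are unions of finitely many convergent sequences. -/
def Sq : Type :=
  {S : Set X // S.Nonempty ∧ IsClosed S ∧
    ∃ F : Set (Set X), F.Finite ∧ (∀ C ∈ F, IsConvSeq C) ∧ S = ⋃₀ F}

/-- The set `⟨P 1, ..., P r⟩` of all `S` which are contained in the union of the sets `P i` and meet
all of them; `𝒰` is the finite family of the sets `P i`. -/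
def box (𝒰 : Set (Set X)) : Set (Sq X) := {S | S.1 ⊆ ⋃₀ 𝒰 ∧ ∀ U ∈ 𝒰, (S.1 ∩ U).Nonempty}

/-- The Vietoris topology, generated by the sets `⟨U 1, ..., U r⟩` with open sets `U i`. -/
instance : TopologicalSpace (Sq X) :=
  TopologicalSpace.generateFrom {W | ∃ 𝒰 : Set (Set X), 𝒰.Finite ∧ (∀ U ∈ 𝒰, IsOpen U) ∧ W = box 𝒰}

end Defs

section Classes

variable (Y : Type) [TopologicalSpace Y]

variable {Y} in
/-- Locally finite families of sets. -/
def LocFin (𝒩 : Set (Set Y)) : Prop :=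
  ∀ y, ∃ U : Set Y, IsOpen U ∧ y ∈ U ∧ {P ∈ 𝒩 | (P ∩ U).Nonempty}.Finite

variable {Y} in
/-- Networks. -/
def IsNetwork (𝒩 : Set (Set Y)) : Prop :=
  ∀ (y : Y) (U : Set Y), IsOpen U → y ∈ U → ∃ P ∈ 𝒩, y ∈ P ∧ P ⊆ U

variable {Y} in
/-- `k`-networks. -/
def IsKNetwork (𝒩 : Set (Set Y)) : Prop :=
  ∀ K U : Set Y, IsCompact K → IsOpen U → K ⊆ U → ∃ 𝒬 ⊆ 𝒩, 𝒬.Finite ∧ K ⊆ ⋃₀ 𝒬 ∧ ⋃₀ 𝒬 ⊆ U

/-- `σ`-spaces: regular (Hausdorff) spaces with a `σ`-locally finite network. -/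
def IsSigmaSpace : Prop :=
  T2Space Y ∧ RegularSpace Y ∧
    ∃ 𝒩 : ℕ → Set (Set Y), (∀ n, LocFin (𝒩 n)) ∧ IsNetwork (⋃ n, 𝒩 n)

/-- `ℵ`-spaces: regular (Hausdorff) spaces with a `σ`-locally finite `k`-network. -/
def IsAlephSpace : Prop :=
  T2Space Y ∧ RegularSpace Y ∧
    ∃ 𝒩 : ℕ → Set (Set Y), (∀ n, LocFin (𝒩 n)) ∧ IsKNetwork (⋃ n, 𝒩 n)

end Classes

/-! ### The hyperspace -/

section Vietoris

variable {X : Type} [TopologicalSpace X]

theorem isOpen_box {𝒰 : Set (Set X)} (hf : 𝒰.Finite) (ho : ∀ U ∈ 𝒰, IsOpen U) :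
    IsOpen (box 𝒰) :=
  TopologicalSpace.isOpen_generateFrom_of_mem ⟨𝒰, hf, ho, rfl⟩

theorem isOpen_sub {U : Set X} (hU : IsOpen U) : IsOpen {S : Sq X | S.1 ⊆ U} := by
  have h : {S : Sq X | S.1 ⊆ U} = box {U} := by
    ext S
    simp only [box, sUnion_singleton, mem_singleton_iff, forall_eq, mem_ofPred_eq]
    refine ⟨fun h => ⟨h, ?_⟩, fun h => h.1⟩
    rw [inter_eq_left.2 h]
    exact S.2.1
  rw [h]
  exact isOpen_box (finite_singleton _) (by rintro _ rfl; exact hU)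

theorem isOpen_hit {U : Set X} (hU : IsOpen U) : IsOpen {S : Sq X | (S.1 ∩ U).Nonempty} := by
  have h : {S : Sq X | (S.1 ∩ U).Nonempty} = box {U, univ} := by
    ext S
    constructor
    · intro h
      refine ⟨fun x _ => ⟨univ, by simp, mem_univ x⟩, ?_⟩
      rintro V (rfl | rfl)
      · exact h
      · simpa using S.2.1
    · intro h
      exact h.2 U (by simp)
  rw [h]
  refine isOpen_box (by simp) ?_
  rintro V (rfl | rfl)
  · exact hU
  · exact isOpen_univ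

theorem isClopen_sub {U : Set X} (hU : IsClopen U) : IsClopen {S : Sq X | S.1 ⊆ U} := by
  refine ⟨?_, isOpen_sub hU.2⟩
  rw [← isOpen_compl_iff]
  convert isOpen_hit hU.compl.2 using 1
  ext S
  rw [mem_compl_iff, mem_ofPred_eq, mem_ofPred_eq, not_subset]
  exact Iff.rfl

theorem isClopen_hit {U : Set X} (hU : IsClopen U) :
    IsClopen {S : Sq X | (S.1 ∩ U).Nonempty} := by
  have h := (isClopen_sub hU.compl).compl
  convert h using 1
  ext S
  rw [mem_compl_iff, mem_ofPred_eq, mem_ofPred_eq, not_subset]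
  simp only [mem_compl_iff, not_not]
  exact Iff.rfl

/-- The points of `X` as elements of the hyperspace. -/
def sing [T1Space X] (x : X) : Sq X :=
  ⟨{x}, singleton_nonempty x, isClosed_singleton, {{x}}, finite_singleton _, by
    rintro _ rfl
    exact ⟨fun _ => x, x, tendsto_const_nhds, by simp⟩, by simp⟩

theorem continuous_sing [T1Space X] : Continuous (sing : X → Sq X) := by
  refine continuous_generateFrom_iff.2 ?_
  rintro _ ⟨𝒰, hf, ho, rfl⟩
  have h : (sing : X → Sq X) ⁻¹' box 𝒰 = (⋃₀ 𝒰) ∩ ⋂ U ∈ 𝒰, U := by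
    ext x
    simp [box, sing]
  rw [h]
  exact (isOpen_sUnion ho).inter (hf.isOpen_biInter ho)

end Vietoris

/-! ### The sequential fan -/

/-- The fan: a point `∞ = none` and the points `some (a, i)`. -/
def Fan (A : Type) : Type := Option (A × ℕ)

variable {A : Type}

/-- The vertex. -/
def vx : Fan A := none

/-- The `i`-th point on the spine `a`. -/
def pt (a : A) (i : ℕ) : Fan A := some (a, i)

theorem cases_fan (x : Fan A) : x = vx ∨ ∃ a i, x = pt a i := by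
  rcases x with _ | ⟨a, i⟩
  · exact Or.inl rfl
  · exact Or.inr ⟨a, i, rfl⟩

theorem pt_ne_vx (a : A) (i : ℕ) : pt a i ≠ vx := Option.some_ne_none _

theorem pt_inj {a b : A} {i j : ℕ} (h : pt a i = pt b j) : a = b ∧ i = j := by
  have h1 : (a, i) = (b, j) := Option.some_injective _ h
  exact Prod.mk.inj h1

instance : TopologicalSpace (Fan A) where
  IsOpen U := vx ∈ U → ∀ a, ∃ n, ∀ i, n ≤ i → pt a i ∈ U
  isOpen_univ := fun _ _ => ⟨0, fun _ _ => mem_univ _⟩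
  isOpen_inter := by
    intro U V hU hV h a
    obtain ⟨n, hn⟩ := hU h.1 a
    obtain ⟨m, hm⟩ := hV h.2 a
    exact ⟨max n m, fun i hi => ⟨hn i (le_trans (le_max_left _ _) hi),
      hm i (le_trans (le_max_right _ _) hi)⟩⟩
  isOpen_sUnion := by
    rintro 𝒰 h𝒰 ⟨U, hU, hx⟩ a
    obtain ⟨n, hn⟩ := h𝒰 U hU hx a
    exact ⟨n, fun i hi => ⟨U, hU, hn i hi⟩⟩

theorem isOpen_fan {U : Set (Fan A)} :
    IsOpen U ↔ (vx ∈ U → ∀ a, ∃ n, ∀ i, n ≤ i → pt a i ∈ U) := Iff.rfl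

theorem isOpen_of_not_mem {U : Set (Fan A)} (h : vx ∉ U) : IsOpen U :=
  isOpen_fan.2 fun h' => absurd h' h

theorem isClopen_of_mem {U : Set (Fan A)} (hU : IsOpen U) (h : vx ∈ U) : IsClopen U :=
  ⟨isOpen_compl_iff.1 (isOpen_of_not_mem (by simpa using h)), hU⟩

theorem isClopen_pt (a : A) (i : ℕ) : IsClopen ({pt a i} : Set (Fan A)) := by
  refine ⟨isOpen_compl_iff.1 (isOpen_fan.2 fun _ b => ⟨i + 1, fun j hj h => ?_⟩),
    isOpen_of_not_mem ?_⟩
  · have := (pt_inj (mem_singleton_iff.1 h)).2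
    omega
  · intro h
    exact pt_ne_vx a i (mem_singleton_iff.1 h).symm

instance : T2Space (Fan A) := by
  refine ⟨fun x y hxy => ?_⟩
  rcases cases_fan x with rfl | ⟨a, i, rfl⟩
  · rcases cases_fan y with rfl | ⟨b, j, rfl⟩
    · exact absurd rfl hxy
    · exact ⟨{pt b j}ᶜ, {pt b j}, (isClopen_pt b j).compl.2, (isClopen_pt b j).2, hxy,
        rfl, disjoint_compl_left⟩
  · exact ⟨{pt a i}, {pt a i}ᶜ, (isClopen_pt a i).2, (isClopen_pt a i).compl.2, rfl,
      fun h => hxy (mem_singleton_iff.1 h).symm, disjoint_compl_right⟩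

/-- The spines which a set meets (outside the vertex). -/
def spines (S : Set (Fan A)) : Set A := {a | ∃ i, pt a i ∈ S}

theorem spines_convSeq {C : Set (Fan A)} (hC : IsConvSeq C) : (spines C).Finite := by
  classical
  obtain ⟨x, a, hx, rfl⟩ := hC
  -- the spines that are met by the sequence
  have h1 : {b : A | ∃ n i, x n = pt b i}.Finite := by
    set M := {b : A | ∃ n i, x n = pt b i} with hM
    have h2 : ∀ b : M, ∃ n i, x n = pt b.1 i := fun b => b.2
    choose n i hni using h2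
    rcases cases_fan a with rfl | ⟨c, k, rfl⟩
    · let D : Set (Fan A) := range fun b : M => pt b.1 (i b)
      have hD : IsOpen Dᶜ := by
        refine isOpen_fan.2 fun _ b => ?_
        by_cases hb : b ∈ M
        · refine ⟨i ⟨b, hb⟩ + 1, fun j hj h => ?_⟩
          obtain ⟨c, hc⟩ := h
          obtain ⟨h3, h4⟩ := pt_inj hc
          obtain rfl : c = ⟨b, hb⟩ := Subtype.ext h3
          omega
        · refine ⟨0, fun j _ h => ?_⟩
          obtain ⟨c, hc⟩ := h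
          exact hb ((pt_inj hc).1 ▸ c.2)
      have hmem : vx ∈ Dᶜ := by
        rintro ⟨c, hc⟩
        exact pt_ne_vx _ _ hc
      obtain ⟨N, hN⟩ := eventually_atTop.1 (hx (hD.mem_nhds hmem))
      have h3 : ∀ b : M, n b < N := by
        intro b
        by_contra hcon
        exact hN (n b) (not_lt.1 hcon) ⟨b, (hni b).symm⟩
      have h4 : Function.Injective fun b : M => (⟨n b, h3 b⟩ : Fin N) := by
        intro b c hbc
        have h5 : n b = n c := congrArg Fin.val hbc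
        have h6 := hni b
        rw [h5, hni c] at h6
        exact Subtype.ext (pt_inj h6).1.symm
      have : Finite M := Finite.of_injective _ h4
      exact Set.toFinite M
    · obtain ⟨N, hN⟩ := eventually_atTop.1 (hx ((isClopen_pt c k).2.mem_nhds rfl))
      refine Finite.subset ((Set.finite_Iio N).biUnion (t := fun m => {b | ∃ i, x m = pt b i})
        (fun m _ => ?_) |>.union (finite_singleton c)) ?_
      · refine Set.Subsingleton.finite ?_
        rintro b ⟨i, hi⟩ b' ⟨i', hi'⟩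
        exact (pt_inj (hi.symm.trans hi')).1
      · rintro b ⟨m, i, hmi⟩
        by_cases hm : m < N
        · exact Or.inl (mem_biUnion (Set.mem_Iio.2 hm) ⟨i, hmi⟩)
        · have := hN m (not_lt.1 hm)
          rw [mem_singleton_iff, hmi] at this
          exact Or.inr (pt_inj this).1
  refine Finite.subset (h1.union (Set.Subsingleton.finite (s := {b | ∃ i, a = pt b i}) ?_)) ?_
  · rintro b ⟨i, hi⟩ b' ⟨i', hi'⟩
    exact (pt_inj (hi.symm.trans hi')).1
  · rintro b ⟨i, ⟨m, hm⟩ | h⟩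
    · exact Or.inl ⟨m, i, hm⟩
    · exact Or.inr ⟨i, (mem_singleton_iff.1 h).symm⟩

theorem finite_spines (S : Sq (Fan A)) : (spines S.1).Finite := by
  obtain ⟨-, -, F, hF, hC, h⟩ := S.2
  rw [h]
  refine Finite.subset (hF.biUnion fun C hCF => spines_convSeq (hC C hCF)) ?_
  rintro b ⟨i, C, hCF, hb⟩
  exact mem_biUnion hCF ⟨i, hb⟩

/-! ### The hyperspace is regular -/

theorem exists_clopen (K : Sq (Fan A)) {W : Set (Sq (Fan A))} (hW : IsOpen W) (hK : K ∈ W) :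
    ∃ V, IsClopen V ∧ K ∈ V ∧ V ⊆ W := by
  induction hW with
  | basic W hW =>
    obtain ⟨𝒰, hf, ho, rfl⟩ := hW
    have h0 : ∃ V : Set (Fan A), IsClopen V ∧ K.1 ⊆ V ∧ V ⊆ ⋃₀ 𝒰 := by
      by_cases h : vx ∈ ⋃₀ 𝒰
      · exact ⟨_, isClopen_of_mem (isOpen_sUnion ho) h, hK.1, Subset.rfl⟩
      · exact ⟨K.1, ⟨K.2.2.1, isOpen_of_not_mem fun h' => h (hK.1 h')⟩, Subset.rfl, hK.1⟩
    obtain ⟨V, hV1, hV2, hV3⟩ := h0
    have h1 : ∀ U : Set (Fan A), ∃ V : Set (Fan A), IsClopen V ∧ V ⊆ U ∧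
        (U ∈ 𝒰 → (K.1 ∩ V).Nonempty) := by
      intro U
      by_cases hU : U ∈ 𝒰
      · by_cases h : vx ∈ U
        · exact ⟨U, isClopen_of_mem (ho U hU) h, Subset.rfl, fun _ => hK.2 U hU⟩
        · obtain ⟨x, hx1, hx2⟩ := hK.2 U hU
          rcases cases_fan x with rfl | ⟨a, i, rfl⟩
          · exact absurd hx2 h
          · exact ⟨{pt a i}, isClopen_pt a i, singleton_subset_iff.2 hx2, fun _ => ⟨_, hx1, rfl⟩⟩
      · exact ⟨∅, isClopen_empty, empty_subset _, fun h => absurd h hU⟩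
    choose Z hZ1 hZ2 hZ3 using h1
    refine ⟨{S | S.1 ⊆ V} ∩ ⋂ U ∈ 𝒰, {S | (S.1 ∩ Z U).Nonempty},
      (isClopen_sub hV1).inter (hf.isClopen_biInter fun U _ => isClopen_hit (hZ1 U)),
      ⟨hV2, ?_⟩, ?_⟩
    · rw [mem_iInter₂]
      exact fun U hU => hZ3 U hU
    · rintro S ⟨h1, h2⟩
      rw [mem_iInter₂] at h2
      refine ⟨h1.trans hV3, fun U hU => ?_⟩
      obtain ⟨x, hx1, hx2⟩ := h2 U hU
      exact ⟨x, hx1, hZ2 U hx2⟩
  | univ => exact ⟨univ, isClopen_univ, trivial, Subset.rfl⟩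
  | inter W W' _ _ ih ih' =>
    obtain ⟨V, h1, h2, h3⟩ := ih hK.1
    obtain ⟨V', h1', h2', h3'⟩ := ih' hK.2
    exact ⟨V ∩ V', h1.inter h1', ⟨h2, h2'⟩, inter_subset_inter h3 h3'⟩
  | sUnion 𝒲 _ ih =>
    obtain ⟨W, hW, hKW⟩ := hK
    obtain ⟨V, h1, h2, h3⟩ := ih W hW hKW
    exact ⟨V, h1, h2, h3.trans (subset_sUnion_of_mem hW)⟩

instance : RegularSpace (Sq (Fan A)) := by
  refine RegularSpace.of_exists_mem_nhds_isClosed_subset fun K s hs => ?_
  obtain ⟨W, hW1, hW2, hW3⟩ := mem_nhds_iff.1 hs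
  obtain ⟨V, h1, h2, h3⟩ := exists_clopen K hW2 hW3
  exact ⟨V, h1.2.mem_nhds h2, h1.1, h3.trans hW1⟩

theorem exists_sep {K K' : Sq (Fan A)} (h : ∃ x, x ∈ K.1 ∧ x ∉ K'.1) :
    ∃ V : Set (Sq (Fan A)), IsClopen V ∧ K ∈ V ∧ K' ∉ V := by
  obtain ⟨x, hx, hx'⟩ := h
  rcases cases_fan x with rfl | ⟨a, i, rfl⟩
  · refine ⟨{S | S.1 ⊆ K'.1}ᶜ, (isClopen_sub ⟨K'.2.2.1, isOpen_of_not_mem hx'⟩).compl,
      fun h => hx' (h hx), fun h => h Subset.rfl⟩
  · refine ⟨{S | (S.1 ∩ {pt a i}).Nonempty}, isClopen_hit (isClopen_pt a i), ⟨_, hx, rfl⟩, ?_⟩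
    rintro ⟨y, hy, rfl⟩
    exact hx' hy

instance : T2Space (Sq (Fan A)) := by
  refine ⟨fun K K' hne => ?_⟩
  have h1 : (∃ x, x ∈ K.1 ∧ x ∉ K'.1) ∨ ∃ x, x ∈ K'.1 ∧ x ∉ K.1 := by
    by_contra hcon
    push Not at hcon
    exact hne (Subtype.ext (Subset.antisymm hcon.1 hcon.2))
  rcases h1 with h1 | h1
  · obtain ⟨V, h2, h3, h4⟩ := exists_sep h1
    exact ⟨V, Vᶜ, h2.2, h2.compl.2, h3, h4, disjoint_compl_right⟩
  · obtain ⟨V, h2, h3, h4⟩ := exists_sep h1
    exact ⟨Vᶜ, V, h2.compl.2, h2.2, h4, h3, disjoint_compl_left⟩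

/-! ### The network -/

/-- The vertex and the points with index less than `j`. -/
def Z (j : ℕ) : Set (Fan A) := {x | x = vx ∨ ∃ a i, i < j ∧ x = pt a i}

/-- The elements of the hyperspace which meet no spine only at places `≥ j`, and have no points at
such places if they do not contain the vertex. -/
def Kj (j : ℕ) : Set (Sq (Fan A)) :=
  {K | (∀ a i, pt a i ∈ K.1 → ∃ i' < j, pt a i' ∈ K.1) ∧
    (vx ∉ K.1 → ∀ a i, pt a i ∈ K.1 → i < j)}

/-- The `j`-th family of the network. -/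
def Pj (j : ℕ) : Set (Set (Sq (Fan A))) := {P | ∃ T : Set (Fan A), P = {K ∈ Kj j | K.1 ∩ Z j = T}}

theorem mem_Kj (K : Sq (Fan A)) : ∃ J, ∀ j, J ≤ j → K ∈ Kj (A := A) j := by
  classical
  have hf := finite_spines K
  have h1 : ∀ a : A, ∃ n, a ∈ spines K.1 → pt a n ∈ K.1 := by
    intro a
    by_cases ha : a ∈ spines K.1
    · obtain ⟨i, hi⟩ := ha
      exact ⟨i, fun _ => hi⟩
    · exact ⟨0, fun h => absurd h ha⟩
  choose n hn using h1
  have h2 : ∀ a : A, ∃ m, vx ∉ K.1 → ∀ i, m ≤ i → pt a i ∉ K.1 := by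
    intro a
    by_cases h : vx ∈ K.1
    · exact ⟨0, fun h' => absurd h h'⟩
    · obtain ⟨m, hm⟩ := isOpen_fan.1 K.2.2.1.isOpen_compl h a
      exact ⟨m, fun _ => hm⟩
  choose m hm using h2
  obtain ⟨N, hN⟩ := (hf.image n).bddAbove
  obtain ⟨M, hM⟩ := (hf.image m).bddAbove
  refine ⟨N + 1 + M, fun j hj => ⟨fun a i hai => ?_, fun hv a i hai => ?_⟩⟩
  · have h3 : n a ≤ N := hN (mem_image_of_mem _ ⟨i, hai⟩)
    exact ⟨n a, by omega, hn a ⟨i, hai⟩⟩
  · have h3 : m a ≤ M := hM (mem_image_of_mem _ ⟨i, hai⟩)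
    by_contra hcon
    exact hm a hv i (by omega) hai

theorem network_aux (K : Sq (Fan A)) {W : Set (Sq (Fan A))} (hW : IsOpen W) (hK : K ∈ W) :
    ∃ J, ∀ j, J ≤ j → ∀ K' ∈ Kj (A := A) j, K'.1 ∩ Z j = K.1 ∩ Z j → K' ∈ W := by
  classical
  induction hW with
  | basic W hW =>
    obtain ⟨𝒰, hf, ho, rfl⟩ := hW
    have hfs := finite_spines K
    -- indices of points in the members of the cover
    have h1 : ∀ U : Set (Fan A), ∃ n, U ∈ 𝒰 → (K.1 ∩ U ∩ Z n).Nonempty := by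
      intro U
      by_cases hU : U ∈ 𝒰
      · obtain ⟨x, hx1, hx2⟩ := hK.2 U hU
        rcases cases_fan x with rfl | ⟨a, i, rfl⟩
        · exact ⟨0, fun _ => ⟨vx, ⟨hx1, hx2⟩, Or.inl rfl⟩⟩
        · exact ⟨i + 1, fun _ => ⟨pt a i, ⟨hx1, hx2⟩, Or.inr ⟨a, i, Nat.lt_succ_self i, rfl⟩⟩⟩
      · exact ⟨0, fun h => absurd h hU⟩
    choose n hn using h1
    obtain ⟨N, hN⟩ := (hf.image n).bddAbove
    -- the tails
    have h2 : ∀ a : A, ∃ m, vx ∈ K.1 → ∀ i, m ≤ i → pt a i ∈ ⋃₀ 𝒰 := by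
      intro a
      by_cases h : vx ∈ K.1
      · obtain ⟨m, hm⟩ := isOpen_fan.1 (isOpen_sUnion ho) (hK.1 h) a
        exact ⟨m, fun _ => hm⟩
      · exact ⟨0, fun h' => absurd h' h⟩
    choose m hm using h2
    obtain ⟨M, hM⟩ := (hfs.image m).bddAbove
    refine ⟨N + M, fun j hj K' hK' heq => ⟨?_, ?_⟩⟩
    · intro x hx
      by_cases hxZ : x ∈ Z j
      · have : x ∈ K'.1 ∩ Z j := ⟨hx, hxZ⟩
        rw [heq] at this
        exact hK.1 this.1
      · rcases cases_fan x with rfl | ⟨a, i, rfl⟩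
        · exact absurd (Or.inl rfl) hxZ
        · have hij : j ≤ i := by
            by_contra hcon
            exact hxZ (Or.inr ⟨a, i, not_le.1 hcon, rfl⟩)
          obtain ⟨i', hi', hi''⟩ := hK'.1 a i hx
          have h3 : pt a i' ∈ K'.1 ∩ Z j := ⟨hi'', Or.inr ⟨a, i', hi', rfl⟩⟩
          rw [heq] at h3
          have ha : m a ≤ M := hM (mem_image_of_mem _ ⟨i', h3.1⟩)
          have hv : vx ∈ K.1 := by
            by_contra hcon
            have hv' : vx ∉ K'.1 := by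
              intro h
              have : vx ∈ K'.1 ∩ Z j := ⟨h, Or.inl rfl⟩
              rw [heq] at this
              exact hcon this.1
            have := hK'.2 hv' a i hx
            omega
          exact hm a hv i (by omega)
    · intro U hU
      obtain ⟨x, ⟨hx1, hx2⟩, hx3⟩ := hn U hU
      have hle : n U ≤ N := hN (mem_image_of_mem _ hU)
      have hxZ : x ∈ Z (A := A) j := by
        rcases hx3 with h | ⟨a, i, hi, h⟩
        · exact Or.inl h
        · exact Or.inr ⟨a, i, by omega, h⟩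
      have : x ∈ K.1 ∩ Z j := ⟨hx1, hxZ⟩
      rw [← heq] at this
      exact ⟨x, this.1, hx2⟩
  | univ => exact ⟨0, fun _ _ _ _ _ => trivial⟩
  | inter W W' _ _ ih ih' =>
    obtain ⟨J, h⟩ := ih hK.1
    obtain ⟨J', h'⟩ := ih' hK.2
    exact ⟨J + J', fun j hj K' hK' heq => ⟨h j (by omega) K' hK' heq, h' j (by omega) K' hK' heq⟩⟩
  | sUnion 𝒲 _ ih =>
    obtain ⟨W, hW, hKW⟩ := hK
    obtain ⟨J, h⟩ := ih W hW hKW
    exact ⟨J, fun j hj K' hK' heq => ⟨W, hW, h j hj K' hK' heq⟩⟩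

theorem locFin_Pj (j : ℕ) : LocFin (Pj (A := A) j) := by
  intro K
  have hf := finite_spines K
  let U : Set (Fan A) := {x | ∀ a i, x = pt a i → i < j → a ∈ spines K.1}
  have hU : IsOpen U := by
    refine isOpen_fan.2 fun _ a => ⟨j, fun i hi b k h hk => ?_⟩
    have := (pt_inj h).2
    omega
  refine ⟨{S | S.1 ⊆ U}, isOpen_sub hU, ?_, ?_⟩
  · rintro x hx a i rfl -
    exact ⟨i, hx⟩
  · let E : Set (Fan A) := {x | x = vx ∨ ∃ a ∈ spines K.1, ∃ i < j, x = pt a i}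
    have hE : E.Finite := by
      refine Finite.subset ((finite_singleton vx).union
        ((hf.prod (Set.finite_Iio j)).image fun p : A × ℕ => pt p.1 p.2)) ?_
      rintro x (rfl | ⟨a, ha, i, hi, rfl⟩)
      · exact Or.inl rfl
      · exact Or.inr ⟨(a, i), ⟨ha, hi⟩, rfl⟩
    refine Finite.subset (hE.finite_subsets.image fun T => {K ∈ Kj j | K.1 ∩ Z j = T}) ?_
    rintro P ⟨⟨T, rfl⟩, K', ⟨hK', rfl⟩, hK'U⟩
    refine ⟨K'.1 ∩ Z j, ?_, rfl⟩
    rintro x ⟨hx, rfl | ⟨a, i, hi, rfl⟩⟩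
    · exact Or.inl rfl
    · exact Or.inr ⟨a, hK'U hx a i rfl hi, i, hi, rfl⟩

theorem isSigmaSpace : IsSigmaSpace (Sq (Fan A)) := by
  refine ⟨inferInstance, inferInstance, Pj, locFin_Pj, ?_⟩
  intro K W hW hK
  obtain ⟨J, hJ⟩ := mem_Kj K
  obtain ⟨J', hJ'⟩ := network_aux K hW hK
  refine ⟨{K' ∈ Kj (J + J') | K'.1 ∩ Z (J + J') = K.1 ∩ Z (J + J')},
    mem_iUnion.2 ⟨J + J', _, rfl⟩, ⟨hJ _ (by omega), rfl⟩, ?_⟩
  rintro K' ⟨h1, h2⟩
  exact hJ' _ (by omega) K' h1 h2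

/-! ### There is no `σ`-locally finite `k`-network -/

theorem exists_inj (D : ℕ → Set A) (hD : ∀ k, (D k).Infinite) :
    ∃ f : ℕ → A, Function.Injective f ∧ ∀ k, f k ∈ D k := by
  classical
  have h1 : ∀ k, ∃ t : Finset A, (t : Set A) ⊆ D k ∧ t.card = k + 1 :=
    fun k => (hD k).exists_subset_card_eq (k + 1)
  choose t ht htc using h1
  have h2 : ∀ s : Finset ℕ, s.card ≤ (s.biUnion t).card := by
    intro s
    rcases s.eq_empty_or_nonempty with rfl | hs
    · simp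
    · calc s.card ≤ (Finset.range (s.max' hs + 1)).card :=
          Finset.card_le_card fun x hx =>
            Finset.mem_range.2 (Nat.lt_succ_of_le (s.le_max' x hx))
        _ = (t (s.max' hs)).card := by rw [Finset.card_range, htc]
        _ ≤ _ := Finset.card_le_card (Finset.subset_biUnion_of_mem t (s.max'_mem hs))
  obtain ⟨f, hf, hft⟩ := (Finset.all_card_le_biUnion_card_iff_exists_injective t).1 h2
  exact ⟨f, hf, fun k => ht k (hft k)⟩

theorem isCompact_spine (a : A) : IsCompact (insert vx (range (pt a)) : Set (Fan A)) := by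
  have h : Tendsto (pt a) atTop (𝓝 (vx : Fan A)) := by
    rw [tendsto_nhds]
    intro U hU hv
    obtain ⟨n, hn⟩ := isOpen_fan.1 hU hv a
    exact eventually_atTop.2 ⟨n, hn⟩
  exact h.isCompact_insert_range

theorem not_isAlephSpace [Uncountable A] : ¬ IsAlephSpace (Sq (Fan A)) := by
  classical
  rintro ⟨-, -, 𝒩, hN, hk⟩
  -- the traces on the fan
  let 𝒬 : Set (Set (Fan A)) :=
    {B | ∃ n, ∃ P ∈ 𝒩 n, B = sing ⁻¹' P ∧ ∃ a, {i | pt a i ∈ B}.Infinite}
  have hQc : 𝒬.Countable := by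
    have h1 : ∀ n, ∃ U : Set (Sq (Fan A)), IsOpen U ∧ sing vx ∈ U ∧
        {P ∈ 𝒩 n | (P ∩ U).Nonempty}.Finite := fun n => hN n (sing vx)
    choose U hU1 hU2 hU3 using h1
    refine (countable_iUnion fun n => ((hU3 n).image fun P => sing ⁻¹' P).countable).mono ?_
    rintro B ⟨n, P, hP, rfl, a, ha⟩
    refine mem_iUnion.2 ⟨n, P, ⟨hP, ?_⟩, rfl⟩
    have h2 : IsOpen (sing ⁻¹' U n : Set (Fan A)) := (hU1 n).preimage continuous_sing
    obtain ⟨m, hm⟩ := isOpen_fan.1 h2 (hU2 n) a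
    obtain ⟨i, hi1, hi2⟩ := ha.exists_gt m
    exact ⟨sing (pt a i), hi1, hm i hi2.le⟩
  have hQk : ∀ (a : A) (U : Set (Fan A)), IsOpen U → insert vx (range (pt a)) ⊆ U →
      ∃ B ∈ 𝒬, B ⊆ U ∧ {i | pt a i ∈ B}.Infinite := by
    intro a U hU hKU
    obtain ⟨F, hF1, hF2, hF3, hF4⟩ := hk (sing '' insert vx (range (pt a))) {S | S.1 ⊆ U}
      ((isCompact_spine a).image continuous_sing) (isOpen_sub hU) (by
        rintro _ ⟨x, hx, rfl⟩
        exact singleton_subset_iff.2 (hKU hx))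
    have h1 : ∃ P ∈ F, {i | sing (pt a i) ∈ P}.Infinite := by
      by_contra hcon
      push Not at hcon
      have h2 : (⋃ P ∈ F, {i : ℕ | sing (pt a i) ∈ P}).Finite :=
        hF2.biUnion fun P hP => hcon P hP
      refine Set.infinite_univ (h2.subset fun i _ => ?_)
      obtain ⟨P, hP, hi⟩ := hF3 ⟨pt a i, Or.inr ⟨i, rfl⟩, rfl⟩
      exact mem_biUnion hP hi
    obtain ⟨P, hP, hinf⟩ := h1
    obtain ⟨n, hn⟩ := mem_iUnion.1 (hF1 hP)
    refine ⟨sing ⁻¹' P, ⟨n, P, hn, rfl, a, hinf⟩, fun x hx => ?_, hinf⟩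
    exact singleton_subset_iff.1 (hF4 ⟨P, hP, hx⟩)
  -- a spine outside the traces that meet countably many spines
  let C : Set A := ⋃ B ∈ {B ∈ 𝒬 | (spines B).Countable}, spines B
  have hC : C.Countable := (hQc.mono (sep_subset _ _)).biUnion fun B hB => hB.2
  obtain ⟨a, ha⟩ : ∃ a, a ∉ C := by
    by_contra hcon
    push Not at hcon
    exact not_countable (α := A) (countable_univ_iff.1 (hC.mono fun x _ => hcon x))
  have hbig : ∀ B ∈ 𝒬, {i | pt a i ∈ B}.Infinite → ¬ (spines B).Countable := by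
    intro B hB hinf hc
    obtain ⟨i, hi⟩ := hinf.nonempty
    exact ha (mem_biUnion (show B ∈ {B ∈ 𝒬 | (spines B).Countable} from ⟨hB, hc⟩) ⟨i, hi⟩)
  let 𝒬' : Set (Set (Fan A)) := {B ∈ 𝒬 | ¬ (spines B).Countable}
  have hQc' : 𝒬'.Countable := hQc.mono (sep_subset _ _)
  have hne : 𝒬'.Nonempty := by
    obtain ⟨B, hB, -, hinf⟩ := hQk a univ isOpen_univ (subset_univ _)
    exact ⟨B, hB, hbig B hB hinf⟩
  obtain ⟨e, he⟩ := hQc'.exists_eq_range hne
  have heQ : ∀ k, ¬ (spines (e k)).Countable := by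
    intro k
    have : e k ∈ 𝒬' := he ▸ mem_range_self k
    exact this.2
  obtain ⟨f, hf, hfD⟩ := exists_inj (fun k => spines (e k) \ {a}) (fun k hfin => by
    refine heQ k ?_
    have := hfin.countable.union (countable_singleton a)
    refine this.mono fun x hx => ?_
    by_cases h : x = a
    · exact Or.inr h
    · exact Or.inl ⟨hx, h⟩)
  have h1 : ∀ k, ∃ i, pt (f k) i ∈ e k := fun k => (hfD k).1
  choose i hi using h1
  let U : Set (Fan A) := (range fun k => pt (f k) (i k))ᶜ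
  have hU : IsOpen U := by
    refine isOpen_fan.2 fun _ b => ?_
    by_cases hb : ∃ k, f k = b
    · obtain ⟨k, rfl⟩ := hb
      refine ⟨i k + 1, fun j hj h => ?_⟩
      obtain ⟨l, hl⟩ := h
      obtain ⟨h3, h4⟩ := pt_inj hl
      obtain rfl : l = k := hf h3
      omega
    · refine ⟨0, fun j _ h => ?_⟩
      obtain ⟨l, hl⟩ := h
      exact hb ⟨l, (pt_inj hl).1⟩
  obtain ⟨B, hB, hBU, hinf⟩ := hQk a U hU (by
    rintro x (rfl | ⟨j, rfl⟩)
    · rintro ⟨l, hl⟩
      exact pt_ne_vx _ _ hl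
    · rintro ⟨l, hl⟩
      exact (hfD l).2 (pt_inj hl).1)
  have hB' : B ∈ 𝒬' := ⟨hB, hbig B hB hinf⟩
  rw [he] at hB'
  obtain ⟨k, rfl⟩ := hB'
  exact hBU (hi k) ⟨k, rfl⟩

/-- **There is a Hausdorff space `X` such that `𝒮(X)` is a `σ`-space but not an `ℵ`-space.** -/
theorem result : ∃ (X : Type) (_ : TopologicalSpace X), T2Space X ∧ IsSigmaSpace (Sq X) ∧
    ¬ IsAlephSpace (Sq X) :=
  ⟨Fan ℝ, inferInstance, inferInstance, isSigmaSpace, not_isAlephSpace⟩

end Pool.Agent.Results.MP_81fb9f_gt.SigmaNotAleph
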